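import Mathlib

/-!
Positive definite ternary forms of determinant one (classically integral) only take values which
are sums of three squares.
-/

namespace Pool.H9.Pent

/-- nearest integer shift -/
lemma shift (A B : ℤ) (hA : 0 < A) : ∃ k : ℤ, 4 * (B + k * A) ^ 2 ≤ A ^ 2 := by
  refine ⟨-((2 * B + A) / (2 * A)), ?_⟩
  have h1 := Int.mul_ediv_add_emod (2 * B + A) (2 * A)
  have h2 := Int.emod_nonneg (2 * B + A) (b := 2 * A) (by omega)
  have h3 := Int.emod_lt_of_pos (2 * B + A) (b := 2 * A) (by omega)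
  set t := (2 * B + A) / (2 * A)
  set m := (2 * B + A) % (2 * A)
  have h4 : 2 * (B + -t * A) = m - A := by linear_combination (-1 : ℤ) * h1
  have h5 : 4 * (B + -t * A) ^ 2 = (m - A) ^ 2 := by
    rw [← h4]; ring
  rw [h5]
  have h6 : -A ≤ m - A := by omega
  have h7 : m - A ≤ A := by omega
  nlinarith

lemma binred : ∀ (n : ℕ) (A B C : ℤ), 0 < A → A ≤ n → 0 < A * C - B ^ 2 →
    ∃ p q r s : ℤ, p * s - q * r = 1 ∧ 0 < A * p ^ 2 + 2 * B * p * r + C * r ^ 2 ∧
      3 * (A * p ^ 2 + 2 * B * p * r + C * r ^ 2) ^ 2 ≤ 4 * (A * C - B ^ 2) := by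
  intro n
  induction n with
  | zero => intro A B C h1 h2; norm_num at h2; omega
  | succ n ih =>
    intro A B C hA hAn hD
    obtain ⟨k, hk⟩ := shift A B hA
    set B' := B + k * A with hB'
    set C' := C + 2 * k * B + k ^ 2 * A with hC'
    have hD' : A * C' - B' ^ 2 = A * C - B ^ 2 := by rw [hB', hC']; ring
    by_cases hc : A ≤ C'
    · refine ⟨1, 0, 0, 1, by ring, by simpa using hA, ?_⟩
      rw [← hD']
      have : (A * 1 ^ 2 + 2 * B * 1 * 0 + C * 0 ^ 2) = A := by ring
      rw [this]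
      nlinarith [mul_le_mul_of_nonneg_left hc hA.le]
    · push Not at hc
      have hC0 : 0 < C' := by
        by_contra h
        push Not at h
        have : A * C' ≤ 0 := mul_nonpos_of_nonneg_of_nonpos hA.le h
        nlinarith [sq_nonneg B']
      obtain ⟨p, q, r, s, h1, h2, h3⟩ := ih C' (-B') A hC0 (by push_cast at hAn; omega)
        (by nlinarith)
      refine ⟨-r + k * p, -s + k * q, p, q, by linear_combination h1, ?_, ?_⟩
      · have : A * (-r + k * p) ^ 2 + 2 * B * (-r + k * p) * p + C * p ^ 2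
            = C' * p ^ 2 + 2 * -B' * p * r + A * r ^ 2 := by rw [hB', hC']; ring
        rw [this]; exact h2
      · have : A * (-r + k * p) ^ 2 + 2 * B * (-r + k * p) * p + C * p ^ 2
            = C' * p ^ 2 + 2 * -B' * p * r + A * r ^ 2 := by rw [hB', hC']; ring
        rw [this]
        calc _ ≤ _ := h3
          _ = 4 * (A * C' - B' ^ 2) := by ring
          _ = _ := by rw [hD']

lemma aux (a A : ℤ) (ha : 2 ≤ a) (h9 : (3 * a ^ 2) ^ 2 ≤ (4 * A) ^ 2) (h3 : 3 * A ^ 2 ≤ 4 * a) :
    False := by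
  have h10 : 27 * a ^ 4 ≤ 64 * a := by
    have e1 : (3 * a ^ 2) ^ 2 = 9 * a ^ 4 := by ring
    have e2 : (4 * A) ^ 2 = 16 * A ^ 2 := by ring
    rw [e1, e2] at h9
    linarith
  have h12 : 8 ≤ a ^ 3 := by
    calc (8 : ℤ) = 2 ^ 3 := by norm_num
      _ ≤ a ^ 3 := pow_le_pow_left₀ (by norm_num) ha 3
  have h13 : 8 * a ≤ a ^ 3 * a := mul_le_mul_of_nonneg_right h12 (by omega)
  have e3 : a ^ 4 = a ^ 3 * a := by ring
  rw [e3] at h10
  linarith

theorem tern : ∀ (n : ℕ) (a b c d e f : ℤ), 0 < a → a ≤ n → 0 < a * b - f ^ 2 →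
    a * b * c + 2 * d * e * f - a * d ^ 2 - b * e ^ 2 - c * f ^ 2 = 1 → ∀ x y z : ℤ,
    ∃ u v w : ℤ, a * x ^ 2 + b * y ^ 2 + c * z ^ 2 + 2 * d * y * z + 2 * e * x * z + 2 * f * x * y
      = u ^ 2 + v ^ 2 + w ^ 2 := by
  intro n
  induction n with
  | zero => intro a b c d e f h1 h2; norm_num at h2; omega
  | succ n ih =>
    intro a b c d e f ha han hA hdet x y z
    have hD : (a * b - f ^ 2) * (a * c - e ^ 2) - (a * d - e * f) ^ 2 = a := by
      linear_combination a * hdet
    obtain ⟨p, q, r, s, h1, h2, h3⟩ := binred (a * b - f ^ 2).toNat (a * b - f ^ 2)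
      (a * d - e * f) (a * c - e ^ 2) hA (by omega) (by rw [hD]; exact ha)
    rw [hD] at h3
    set A' := (a * b - f ^ 2) * p ^ 2 + 2 * (a * d - e * f) * p * r + (a * c - e ^ 2) * r ^ 2
      with hA'
    set y' := s * y - q * z with hy'
    set z' := -r * y + p * z with hz'
    have hy : y = p * y' + q * z' := by rw [hy', hz']; linear_combination (-y) * h1
    have hz : z = r * y' + s * z' := by rw [hy', hz']; linear_combination (-z) * h1
    by_cases ha1 : a = 1
    · subst ha1
      have hA1 : A' = 1 := by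
        have : A' < 2 := by nlinarith
        omega
      set B' := (1 * b - f ^ 2) * p * q + (1 * d - e * f) * (p * s + q * r)
        + (1 * c - e ^ 2) * r * s with hB'
      refine ⟨x + f * y + e * z, y' + B' * z', z', ?_⟩
      have hC' : A' * ((1 * b - f ^ 2) * q ^ 2 + 2 * (1 * d - e * f) * q * s
          + (1 * c - e ^ 2) * s ^ 2) - B' ^ 2 = 1 := by
        rw [hA', hB']
        have h5 : ((1 * b - f ^ 2) * p ^ 2 + 2 * (1 * d - e * f) * p * r + (1 * c - e ^ 2) * r ^ 2)
          * ((1 * b - f ^ 2) * q ^ 2 + 2 * (1 * d - e * f) * q * s + (1 * c - e ^ 2) * s ^ 2)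
          - ((1 * b - f ^ 2) * p * q + (1 * d - e * f) * (p * s + q * r)
            + (1 * c - e ^ 2) * r * s) ^ 2
          = ((1 * b - f ^ 2) * (1 * c - e ^ 2) - (1 * d - e * f) ^ 2) * (p * s - q * r) ^ 2 := by
          ring
        rw [h5, hD, h1]; norm_num
      rw [hA1] at hC'
      have h6 : (1 * b - f ^ 2) * y ^ 2 + 2 * (1 * d - e * f) * y * z + (1 * c - e ^ 2) * z ^ 2
          = A' * y' ^ 2 + 2 * B' * y' * z' + ((1 * b - f ^ 2) * q ^ 2
            + 2 * (1 * d - e * f) * q * s + (1 * c - e ^ 2) * s ^ 2) * z' ^ 2 := by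
        rw [hA', hB']
        conv_lhs => rw [hy, hz]
        ring
      rw [hA1] at h6
      linear_combination h6 + z' ^ 2 * hC'
    · have ha2 : 2 ≤ a := by omega
      set f1 := f * p + e * r with hf1
      set e1 := f * q + e * s with he1
      set b1 := b * p ^ 2 + 2 * d * p * r + c * r ^ 2 with hb1
      set c1 := b * q ^ 2 + 2 * d * q * s + c * s ^ 2 with hc1
      set d1 := b * p * q + d * (p * s + q * r) + c * r * s with hd1
      obtain ⟨k, hk⟩ := shift a f1 ha
      set f2 := f1 + k * a with hf2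
      set b2 := b1 + 2 * k * f1 + k ^ 2 * a with hb2
      set d2 := d1 + k * e1 with hd2
      have hm : a * b2 - f2 ^ 2 = A' := by
        rw [hb2, hf2, hb1, hf1, hA']; ring
      have hdet2 : a * b2 * c1 + 2 * d2 * e1 * f2 - a * d2 ^ 2 - b2 * e1 ^ 2 - c1 * f2 ^ 2 = 1 := by
        have h7 : a * b2 * c1 + 2 * d2 * e1 * f2 - a * d2 ^ 2 - b2 * e1 ^ 2 - c1 * f2 ^ 2
          = (a * b * c + 2 * d * e * f - a * d ^ 2 - b * e ^ 2 - c * f ^ 2) * (p * s - q * r) ^ 2 := by
          rw [hb2, hf2, hd2, hb1, hf1, hd1, hc1, he1]; ring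
        rw [h7, hdet, h1]; norm_num
      have hlt : b2 < a := by
        by_contra hge
        push Not at hge
        have h8 : 3 * a ^ 2 ≤ 4 * A' := by
          have h80 : a * a ≤ a * b2 := mul_le_mul_of_nonneg_left hge ha.le
          have h81 : a * a = a ^ 2 := by ring
          linarith [hm, hk, h80, h81]
        have h9 : (3 * a ^ 2) ^ 2 ≤ (4 * A') ^ 2 :=
          pow_le_pow_left₀ (by positivity) h8 2
        exact aux a A' ha2 h9 h3
      have hb0 : 0 < b2 := by
        by_contra h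
        push Not at h
        have h82 : a * b2 ≤ 0 := mul_nonpos_of_nonneg_of_nonpos ha.le h
        linarith [sq_nonneg f2, hm, h2, h82]
      have hmin : 0 < b2 * a - f2 ^ 2 := by
        have : b2 * a = a * b2 := by ring
        linarith [hm, h2]
      obtain ⟨u, v, w, huvw⟩ := ih b2 a c1 e1 d2 f2 hb0 (by push_cast at han; omega)
        hmin (by linear_combination hdet2) y' (x - k * y') z'
      refine ⟨u, v, w, ?_⟩
      rw [← huvw]
      conv_lhs => rw [hy, hz]
      rw [hb2, hf2, hd2, hb1, hf1, hd1, hc1, he1]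
      ring

end Pool.H9.Pent
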