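import Mathlib
import Pool.Agent.H9.Pent.Ternary

/-!
Gauss-Legendre: every natural number congruent to 1 or 2 modulo 4 is a sum of three squares.
-/

namespace Pool.H9.Pent

open ZMod NumberTheorySymbols

lemma core (n d M x : ℤ) (hd : 0 < d) (hM : M = d * n - 1) (hM0 : 0 < M) (hx : M ∣ x ^ 2 + d) :
    ∃ a b c : ℤ, n = a ^ 2 + b ^ 2 + c ^ 2 := by
  obtain ⟨k, hk⟩ := hx
  have hk0 : 0 < k := by
    have h1 : 0 < M * k := by rw [← hk]; positivity
    exact pos_of_mul_pos_right h1 hM0.le |> fun h => h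
  obtain ⟨u, v, w, h⟩ := tern k.toNat k M n 0 1 x hk0 (by omega)
    (by nlinarith) (by linear_combination (-n) * hk - hM) 0 0 1
  exact ⟨u, v, w, by linear_combination h⟩

lemma exists_sq_of_jacobi (p : ℕ) (hp : p.Prime) (d : ℕ) (h : J(-(d : ℤ) | p) = 1) :
    ∃ x : ℤ, (p : ℤ) ∣ x ^ 2 + d := by
  have := Fact.mk hp
  obtain ⟨y, hy⟩ := ZMod.isSquare_of_jacobiSym_eq_one h
  refine ⟨(y.val : ℤ), ?_⟩
  rw [← ZMod.intCast_zmod_eq_zero_iff_dvd]
  push_cast
  rw [ZMod.natCast_zmod_val]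
  push_cast at hy
  linear_combination -hy

theorem three_sq_two (n : ℕ) (h : n % 4 = 2) : ∃ a b c : ℤ, (n : ℤ) = a ^ 2 + b ^ 2 + c ^ 2 := by
  have hcop : Nat.Coprime (n - 1) (4 * n) := by
    have h1 : Nat.Coprime (n - 1) n := by
      have := Nat.coprime_self_add_right (m := n - 1) (n := 1)
      have h2 : n - 1 + 1 = n := by omega
      rw [h2] at this
      exact this.mpr (Nat.coprime_one_right _)
    have h2 : Nat.Coprime (n - 1) 2 := by
      rw [Nat.coprime_two_right]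
      exact Nat.odd_iff.mpr (by omega)
    have h4 : Nat.Coprime (n - 1) 4 := by
      have : (4 : ℕ) = 2 ^ 2 := by norm_num
      rw [this]; exact h2.pow_right 2
    exact h4.mul_right h1
  obtain ⟨p, hpn, hp, hmod⟩ := Nat.forall_exists_prime_gt_and_modEq (4 * n) (q := 4 * n)
    (a := n - 1) (by omega) hcop
  -- p + 1 = n * d, d = 1 mod 4
  obtain ⟨j, hj⟩ : ∃ j, p = (n - 1) + 4 * n * j := by
    have h1 : (n - 1) % (4 * n) = n - 1 := Nat.mod_eq_of_lt (by omega)
    have h2 : p % (4 * n) = n - 1 := by rw [hmod, h1]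
    refine ⟨p / (4 * n), ?_⟩
    rw [← h2]; exact (Nat.mod_add_div p (4 * n)).symm
  set d := 4 * j + 1 with hd
  have hpd : p + 1 = n * d := by
    rw [hj, hd]
    have : n - 1 + 4 * n * j + 1 = n + 4 * n * j := by omega
    rw [this]; ring
  have hp4 : p % 4 = 1 := by
    rw [hj]
    have : (n - 1 + 4 * n * j) % 4 = (n - 1) % 4 := by
      have : 4 * n * j = 4 * (n * j) := by ring
      rw [this]; omega
    rw [this]; omega
  have hpodd : Odd p := Nat.odd_iff.mpr (by omega)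
  have hdodd : Odd d := Nat.odd_iff.mpr (by omega)
  have hJ : J(-(d : ℤ) | p) = 1 := by
    rw [jacobiSym.neg _ hpodd, χ₄_nat_one_mod_four hp4, one_mul,
      jacobiSym.quadratic_reciprocity_one_mod_four (by omega) hpodd]
    have h1 : J((p : ℤ) | d) = J((-1 : ℤ) | d) := by
      apply jacobiSym.mod_left'
      have h2 : (p : ℤ) = -1 + d * n := by
        have : (p : ℤ) + 1 = n * d := by exact_mod_cast hpd
        linarith
      rw [h2, Int.add_mul_emod_self_left]
    rw [h1, jacobiSym.at_neg_one hdodd, χ₄_nat_one_mod_four (by omega)]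
  obtain ⟨x, hx⟩ := exists_sq_of_jacobi p hp d hJ
  apply core n d p x (by omega) (by
    have : (p : ℤ) + 1 = n * d := by exact_mod_cast hpd
    linarith) (by exact_mod_cast hp.pos) hx

theorem three_sq_one (n : ℕ) (h : n % 4 = 1) : ∃ a b c : ℤ, (n : ℤ) = a ^ 2 + b ^ 2 + c ^ 2 := by
  by_cases hn1 : n = 1
  · exact ⟨1, 0, 0, by rw [hn1]; norm_num⟩
  obtain ⟨m, hm⟩ : ∃ m, n = 4 * m + 1 := ⟨n / 4, by omega⟩
  have hm0 : 1 ≤ m := by omega
  -- (3n-1)/2 = 6m+1
  have hcop : Nat.Coprime (6 * m + 1) (4 * n) := by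
    have h2 : Nat.Coprime (6 * m + 1) 2 := by
      rw [Nat.coprime_two_right]
      exact Nat.odd_iff.mpr (by omega)
    have h4 : Nat.Coprime (6 * m + 1) 4 := by
      have : (4 : ℕ) = 2 ^ 2 := by norm_num
      rw [this]; exact h2.pow_right 2
    have h1 : Nat.Coprime (6 * m + 1) n := by
      rw [hm]
      rw [← Nat.isCoprime_iff_coprime]
      refine ⟨-2, 3, ?_⟩
      push_cast; ring
    exact h4.mul_right h1
  obtain ⟨p, hpn, hp, hmod⟩ := Nat.forall_exists_prime_gt_and_modEq (4 * n) (q := 4 * n)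
    (a := 6 * m + 1) (by omega) hcop
  obtain ⟨j, hj⟩ : ∃ j, p = (6 * m + 1) + 4 * n * j := by
    have h1 : (6 * m + 1) % (4 * n) = 6 * m + 1 := Nat.mod_eq_of_lt (by omega)
    have h2 : p % (4 * n) = 6 * m + 1 := by rw [hmod, h1]
    refine ⟨p / (4 * n), ?_⟩
    rw [← h2]; exact (Nat.mod_add_div p (4 * n)).symm
  set d := 8 * j + 3 with hd
  have hpd : 2 * p + 1 = n * d := by
    rw [hj, hd, hm]; ring
  have hpodd : Odd p := by
    rw [hj, Nat.odd_iff]
    have : 4 * n * j = 2 * (2 * n * j) := by ring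
    rw [this]; omega
  have hdodd : Odd d := Nat.odd_iff.mpr (by omega)
  have hd4 : d % 4 = 3 := by omega
  have hJpd : J((p : ℤ) | d) = 1 := by
    have h1 : J((2 : ℤ) * p | d) = J((-1 : ℤ) | d) := by
      apply jacobiSym.mod_left'
      have h2 : (2 : ℤ) * p = -1 + d * n := by
        have : (2 : ℤ) * (p : ℤ) + 1 = n * d := by exact_mod_cast hpd
        linarith
      rw [h2, Int.add_mul_emod_self_left]
    rw [jacobiSym.mul_left, jacobiSym.at_neg_one hdodd, χ₄_nat_three_mod_four hd4,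
      jacobiSym.at_two hdodd, χ₈_nat_mod_eight] at h1
    have h3 : d % 8 = 3 := by omega
    rw [h3] at h1
    have h4 : χ₈ ((3 : ℕ) : ZMod 8) = -1 := by decide
    rw [h4] at h1
    linarith
  have hJ : J(-(d : ℤ) | p) = 1 := by
    have hcases : p % 4 = 1 ∨ p % 4 = 3 := by
      have := Nat.odd_iff.mp hpodd; omega
    rcases hcases with h4 | h4
    · rw [jacobiSym.neg _ hpodd, χ₄_nat_one_mod_four h4, one_mul,
        jacobiSym.quadratic_reciprocity_one_mod_four' hdodd h4, hJpd]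
    · rw [jacobiSym.neg _ hpodd, χ₄_nat_three_mod_four h4,
        jacobiSym.quadratic_reciprocity_three_mod_four hd4 h4, hJpd]
      norm_num
  obtain ⟨x, hx⟩ := exists_sq_of_jacobi p hp d hJ
  -- make x odd
  obtain ⟨y, hyodd, hy⟩ : ∃ y : ℤ, y % 2 = 1 ∧ (p : ℤ) ∣ y ^ 2 + d := by
    rcases Int.emod_two_eq_zero_or_one x with h0 | h0
    · refine ⟨x + p, ?_, ?_⟩
      · have := Nat.odd_iff.mp hpodd; omega
      · have : (x + p) ^ 2 + (d : ℤ) = x ^ 2 + d + p * (2 * x + p) := by ring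
        rw [this]; exact dvd_add hx (dvd_mul_right _ _)
    · exact ⟨x, h0, hx⟩
  have hy2 : (2 : ℤ) ∣ y ^ 2 + d := by
    obtain ⟨t, ht⟩ : ∃ t, y = 2 * t + 1 := ⟨y / 2, by omega⟩
    refine ⟨2 * t ^ 2 + 2 * t + 4 * j + 2, ?_⟩
    rw [ht, hd]; push_cast; ring
  have h2p : (2 * (p : ℤ)) ∣ y ^ 2 + d := by
    apply IsCoprime.mul_dvd _ hy2 hy
    have : Nat.Coprime 2 p := Nat.coprime_two_left.mpr hpodd
    exact_mod_cast Nat.isCoprime_iff_coprime.mpr this
  apply core n d (2 * p) y (by omega) (by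
    have : 2 * (p : ℤ) + 1 = n * d := by exact_mod_cast hpd
    linarith) (by have := hp.pos; omega) h2p

theorem three_sq {n : ℕ} (h : n % 4 = 1 ∨ n % 4 = 2) :
    ∃ a b c : ℤ, (n : ℤ) = a ^ 2 + b ^ 2 + c ^ 2 := by
  rcases h with h | h
  · exact three_sq_one n h
  · exact three_sq_two n h

end Pool.H9.Pent
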