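import Mathlib
import Pool.Agent.H9.Pent.ThreeSq

/-!
The three explicit constructions (rotation by quaternions of norm three).
-/

namespace Pool.H9.Pent

/-- `n` is a sum of four pentagonal-type terms with nonnegative arguments (doubled form). -/
def Rep (n : ℕ) : Prop := ∃ w x y z : ℕ,
  2 * (n : ℤ) = (w : ℤ) * (5 * w - 1) + x * (5 * x - 1) + y * (5 * y + 1) + z * (5 * z + 1)

lemma rep_of {n : ℕ} {p1 p2 m1 m2 : ℤ} (h1 : 0 ≤ p1) (h2 : 0 ≤ p2) (h3 : m1 ≤ 0) (h4 : m2 ≤ 0)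
    (r1 : p1 % 10 = 1) (r2 : p2 % 10 = 1) (r3 : m1 % 10 = 1) (r4 : m2 % 10 = 1)
    (hs : p1 ^ 2 + p2 ^ 2 + m1 ^ 2 + m2 ^ 2 = 40 * n + 4) : Rep n := by
  obtain ⟨y, hy⟩ : ∃ y : ℕ, p1 = 10 * y + 1 := ⟨((p1 - 1) / 10).toNat, by omega⟩
  obtain ⟨z, hz⟩ : ∃ z : ℕ, p2 = 10 * z + 1 := ⟨((p2 - 1) / 10).toNat, by omega⟩
  obtain ⟨w, hw⟩ : ∃ w : ℕ, m1 = 1 - 10 * w := ⟨((1 - m1) / 10).toNat, by omega⟩
  obtain ⟨x, hx⟩ : ∃ x : ℕ, m2 = 1 - 10 * x := ⟨((1 - m2) / 10).toNat, by omega⟩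
  refine ⟨w, x, y, z, ?_⟩
  rw [hy, hz, hw, hx] at hs
  linarith

lemma sq_mod_two (a : ℤ) : a ^ 2 % 2 = a % 2 := by
  rcases Int.emod_two_eq_zero_or_one a with h | h <;> simp [pow_two, Int.mul_emod, h]

lemma le_of_sq {L M : ℤ} (hM : 0 ≤ M) (h : L ^ 2 ≤ M ^ 2) : -M ≤ L ∧ L ≤ M :=
  abs_le.mp (abs_le_of_sq_le_sq h hM)

/-- Cauchy-Schwarz in three variables -/
lemma cs3 (α β γ a b c : ℤ) :
    (α * a + β * b + γ * c) ^ 2 ≤ (α ^ 2 + β ^ 2 + γ ^ 2) * (a ^ 2 + b ^ 2 + c ^ 2) := by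
  nlinarith [sq_nonneg (α * b - β * a), sq_nonneg (β * c - γ * b), sq_nonneg (α * c - γ * a)]

lemma cs3' {α β γ a b c K S M : ℤ} (hM : 0 ≤ M) (hK : a ^ 2 + b ^ 2 + c ^ 2 = K)
    (hS : α ^ 2 + β ^ 2 + γ ^ 2 = S) (h : S * K ≤ M ^ 2) :
    -M ≤ α * a + β * b + γ * c ∧ α * a + β * b + γ * c ≤ M := by
  apply le_of_sq hM
  calc _ ≤ _ := cs3 α β γ a b c
    _ = S * K := by rw [hK, hS]
    _ ≤ _ := h

/-- Case A: final step. -/
lemma caseA {n : ℕ} {X D Y Z : ℤ} (h : 10 * (n : ℤ) + 1 = X ^ 2 + 25 * (D ^ 2 + Y ^ 2 + Z ^ 2))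
    (hX : X % 5 = 1) (hD0 : 0 ≤ D) (hD : 3 * (10 * (n : ℤ) + 1) ≤ 100 * D ^ 2) : Rep n := by
  have hpar : (X + D + Y + Z) % 2 = 1 := by
    have h1 := sq_mod_two X
    have h2 := sq_mod_two D
    have h3 := sq_mod_two Y
    have h4 := sq_mod_two Z
    omega
  have hK : X ^ 2 + (5 * Y) ^ 2 + (5 * Z) ^ 2 = 10 * (n : ℤ) + 1 - 25 * D ^ 2 := by
    linear_combination -h
  have hb : (3 : ℤ) * (10 * (n : ℤ) + 1 - 25 * D ^ 2) ≤ (5 * D) ^ 2 := by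
    have : (5 * D) ^ 2 = 25 * D ^ 2 := by ring
    rw [this]; linarith
  have e1 := cs3' (α := 1) (β := 1) (γ := -1) (S := 3) (M := 5 * D) (by omega) hK (by norm_num) hb
  have e2 := cs3' (α := 1) (β := -1) (γ := 1) (S := 3) (M := 5 * D) (by omega) hK (by norm_num) hb
  have e3 := cs3' (α := 1) (β := -1) (γ := -1) (S := 3) (M := 5 * D) (by omega) hK (by norm_num) hb
  have e4 := cs3' (α := 1) (β := 1) (γ := 1) (S := 3) (M := 5 * D) (by omega) hK (by norm_num) hb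
  apply rep_of (p1 := X + 5 * D + 5 * Y - 5 * Z) (p2 := X + 5 * D - 5 * Y + 5 * Z)
    (m1 := X - 5 * D - 5 * Y - 5 * Z) (m2 := X - 5 * D + 5 * Y + 5 * Z)
  · omega
  · omega
  · omega
  · omega
  · omega
  · omega
  · omega
  · omega
  · linear_combination (-4) * h

/-- Case C: final step. -/
lemma caseC {n : ℕ} {l a b c N1 : ℤ} (hN : 10 * (n : ℤ) + 1 = 3 * N1)
    (hK : a ^ 2 + b ^ 2 + c ^ 2 = N1 - l ^ 2) (hl0 : 0 ≤ l) (hl : 11 * N1 ≤ 12 * l ^ 2)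
    (hl5 : l % 5 = 1) (ha : a % 5 = 2) (hb : b % 5 = 1) (hc : c % 5 = 1) : Rep n := by
  have hpar : (l + a + b + c) % 2 = 1 := by
    have h1 := sq_mod_two l
    have h2 := sq_mod_two a
    have h3 := sq_mod_two b
    have h4 := sq_mod_two c
    omega
  have k1 : 11 * (N1 - l ^ 2) ≤ l ^ 2 := by linarith
  have k3 : 3 * (N1 - l ^ 2) ≤ (3 * l) ^ 2 := by
    have : (3 * l) ^ 2 = 9 * l ^ 2 := by ring
    rw [this]
    have : 0 ≤ N1 - l ^ 2 := by rw [← hK]; positivity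
    nlinarith [sq_nonneg l]
  have e0 := cs3' (α := -3) (β := -1) (γ := -1) (S := 11) (M := l) hl0 hK (by norm_num) k1
  have e1 := cs3' (α := -1) (β := 1) (γ := -1) (S := 3) (M := 3 * l) (by omega) hK (by norm_num) k3
  have e2 := cs3' (α := -1) (β := -1) (γ := 3) (S := 11) (M := l) hl0 hK (by norm_num) k1
  have e3 := cs3' (α := 1) (β := -3) (γ := -1) (S := 11) (M := l) hl0 hK (by norm_num) k1
  apply rep_of (p1 := 3 * l - a + b - c) (p2 := l - a - b + 3 * c)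
    (m1 := -l - 3 * a - b - c) (m2 := -(l + a - 3 * b - c))
  · omega
  · omega
  · omega
  · omega
  · omega
  · omega
  · omega
  · omega
  · linear_combination 12 * hK - 4 * hN

/-- Case B: final step, `c = 0` modulo 25. -/
lemma caseB0 {n : ℕ} {l a b c K : ℤ} (hK : a ^ 2 + b ^ 2 + c ^ 2 = K)
    (hN : 9 * K + 25 * l ^ 2 = 5 * (10 * (n : ℤ) + 1)) (hl0 : 0 ≤ l)
    (hl : 19 * (10 * (n : ℤ) + 1) ≤ 100 * l ^ 2)
    (hl5 : l % 5 = 1) (ha : a % 5 = 1) (hb : b % 5 = 2) (hc : c % 25 = 0) : Rep n := by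
  have hpar : (l + a + b + c) % 2 = 1 := by
    have h1 := sq_mod_two l
    have h2 := sq_mod_two a
    have h3 := sq_mod_two b
    have h4 := sq_mod_two c
    omega
  obtain ⟨a', ha'⟩ : ∃ t, a = 5 * t + 1 := ⟨a / 5, by omega⟩
  obtain ⟨b', hb'⟩ : ∃ t, b = 5 * t + 2 := ⟨b / 5, by omega⟩
  obtain ⟨c', hc'⟩ : ∃ t, c = 25 * t + 0 := ⟨c / 25, by omega⟩
  obtain ⟨l', hl'⟩ : ∃ t, l = 5 * t + 1 := ⟨l / 5, by omega⟩
  have hrel : (2 * a' + 4 * b') % 5 = 3 := by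
    have hK' := hK
    have hN' := hN
    rw [ha', hb', hc'] at hK'
    rw [hl'] at hN'
    ring_nf at hK' hN'
    clear * - hK' hN'
    omega
  have k1 : 171 * K ≤ (5 * l) ^ 2 := by
    have : (5 * l) ^ 2 = 25 * l ^ 2 := by ring
    rw [this]; linarith
  have k3 : 99 * K ≤ (15 * l) ^ 2 := by
    have h1 : (15 * l) ^ 2 = 225 * l ^ 2 := by ring
    have h2 : 0 ≤ K := by rw [← hK]; positivity
    have h3 : 0 ≤ l ^ 2 := by positivity
    rw [h1]; linarith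
  have e0 := cs3' (α := 3) (β := -9) (γ := 3) (S := 99) (M := 15 * l) (by omega) hK
    (by norm_num) k3
  have e1 := cs3' (α := 1) (β := 7) (γ := -7) (S := 99) (M := 15 * l) (by omega) hK
    (by norm_num) k3
  have e2 := cs3' (α := -13) (β := -1) (γ := 1) (S := 171) (M := 5 * l) (by omega) hK
    (by norm_num) k1
  have e3 := cs3' (α := 1) (β := 7) (γ := 11) (S := 171) (M := 5 * l) (by omega) hK
    (by norm_num) k1
  obtain ⟨H0, g0⟩ : ∃ H, H = -15 * l' + 3 * a' - 9 * b' + 15 * c' - 6 := ⟨_, rfl⟩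
  have f0 : -15 * l + 3 * a - 9 * b + 3 * c = 5 * H0 := by rw [g0, ha', hb', hc', hl']; ring
  have r0 : H0 % 5 = 1 := by clear * - g0 hrel; omega
  have s0 : H0 % 2 = 1 := by clear * - f0 hpar; omega
  have t0 : H0 ≤ 0 := by clear * - f0 e0 hl0; omega
  obtain ⟨H1, g1⟩ : ∃ H, H = -15 * l' + 1 * a' + 7 * b' - 35 * c' + 0 := ⟨_, rfl⟩
  have f1 : -15 * l + 1 * a + 7 * b - 7 * c = 5 * H1 := by rw [g1, ha', hb', hc', hl']; ring
  have r1 : H1 % 5 = 4 := by clear * - g1 hrel; omega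
  have s1 : H1 % 2 = 1 := by clear * - f1 hpar; omega
  have t1 : H1 ≤ 0 := by clear * - f1 e1 hl0; omega
  obtain ⟨H2, g2⟩ : ∃ H, H = -5 * l' - 13 * a' - 1 * b' + 5 * c' - 4 := ⟨_, rfl⟩
  have f2 : -5 * l - 13 * a - 1 * b + 1 * c = 5 * H2 := by rw [g2, ha', hb', hc', hl']; ring
  have r2 : H2 % 5 = 4 := by clear * - g2 hrel; omega
  have s2 : H2 % 2 = 1 := by clear * - f2 hpar; omega
  have t2 : H2 ≤ 0 := by clear * - f2 e2 hl0; omega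
  obtain ⟨H3, g3⟩ : ∃ H, H = -5 * l' + 1 * a' + 7 * b' + 55 * c' + 2 := ⟨_, rfl⟩
  have f3 : -5 * l + 1 * a + 7 * b + 11 * c = 5 * H3 := by rw [g3, ha', hb', hc', hl']; ring
  have r3 : H3 % 5 = 1 := by clear * - g3 hrel; omega
  have s3 : H3 % 2 = 1 := by clear * - f3 hpar; omega
  have t3 : H3 ≤ 0 := by clear * - f3 e3 hl0; omega
  apply rep_of (p1 := -H1) (p2 := -H2) (m1 := H0) (m2 := H3)
  · clear * - t1; omega
  · clear * - t2; omega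
  · clear * - t0; omega
  · clear * - t3; omega
  · clear * - r1 s1; omega
  · clear * - r2 s2; omega
  · clear * - r0 s0; omega
  · clear * - r3 s3; omega
  · have key : 25 * (H0 ^ 2 + H1 ^ 2 + H2 ^ 2 + H3 ^ 2) = 25 * (40 * (n : ℤ) + 4) := by
      have : 25 * (H0 ^ 2 + H1 ^ 2 + H2 ^ 2 + H3 ^ 2)
        = (5 * H0) ^ 2 + (5 * H1) ^ 2 + (5 * H2) ^ 2 + (5 * H3) ^ 2 := by ring
      rw [this, ← f0, ← f1, ← f2, ← f3]
      linear_combination 180 * hK + 20 * hN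
    linarith

/-- Case B: final step, `c = 5` modulo 25. -/
lemma caseB1 {n : ℕ} {l a b c K : ℤ} (hK : a ^ 2 + b ^ 2 + c ^ 2 = K)
    (hN : 9 * K + 25 * l ^ 2 = 5 * (10 * (n : ℤ) + 1)) (hl0 : 0 ≤ l)
    (hl : 19 * (10 * (n : ℤ) + 1) ≤ 100 * l ^ 2)
    (hl5 : l % 5 = 1) (ha : a % 5 = 1) (hb : b % 5 = 2) (hc : c % 25 = 5) : Rep n := by
  have hpar : (l + a + b + c) % 2 = 1 := by
    have h1 := sq_mod_two l
    have h2 := sq_mod_two a
    have h3 := sq_mod_two b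
    have h4 := sq_mod_two c
    omega
  obtain ⟨a', ha'⟩ : ∃ t, a = 5 * t + 1 := ⟨a / 5, by omega⟩
  obtain ⟨b', hb'⟩ : ∃ t, b = 5 * t + 2 := ⟨b / 5, by omega⟩
  obtain ⟨c', hc'⟩ : ∃ t, c = 25 * t + 5 := ⟨c / 25, by omega⟩
  obtain ⟨l', hl'⟩ : ∃ t, l = 5 * t + 1 := ⟨l / 5, by omega⟩
  have hrel : (2 * a' + 4 * b') % 5 = 3 := by
    have hK' := hK
    have hN' := hN
    rw [ha', hb', hc'] at hK'
    rw [hl'] at hN'
    ring_nf at hK' hN'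
    clear * - hK' hN'
    omega
  have k1 : 171 * K ≤ (5 * l) ^ 2 := by
    have : (5 * l) ^ 2 = 25 * l ^ 2 := by ring
    rw [this]; linarith
  have k3 : 99 * K ≤ (15 * l) ^ 2 := by
    have h1 : (15 * l) ^ 2 = 225 * l ^ 2 := by ring
    have h2 : 0 ≤ K := by rw [← hK]; positivity
    have h3 : 0 ≤ l ^ 2 := by positivity
    rw [h1]; linarith
  have e0 := cs3' (α := 7) (β := -1) (γ := -7) (S := 99) (M := 15 * l) (by omega) hK
    (by norm_num) k3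
  have e1 := cs3' (α := -7) (β := 1) (γ := -11) (S := 171) (M := 5 * l) (by omega) hK
    (by norm_num) k1
  have e2 := cs3' (α := -9) (β := -3) (γ := 3) (S := 99) (M := 15 * l) (by omega) hK
    (by norm_num) k3
  have e3 := cs3' (α := 1) (β := -13) (γ := -1) (S := 171) (M := 5 * l) (by omega) hK
    (by norm_num) k1
  obtain ⟨H0, g0⟩ : ∃ H, H = -15 * l' + 7 * a' - 1 * b' - 35 * c' - 9 := ⟨_, rfl⟩
  have f0 : -15 * l + 7 * a - 1 * b - 7 * c = 5 * H0 := by rw [g0, ha', hb', hc', hl']; ring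
  have r0 : H0 % 5 = 4 := by clear * - g0 hrel; omega
  have s0 : H0 % 2 = 1 := by clear * - f0 hpar; omega
  have t0 : H0 ≤ 0 := by clear * - f0 e0 hl0; omega
  obtain ⟨H1, g1⟩ : ∃ H, H = 5 * l' - 7 * a' + 1 * b' - 55 * c' - 11 := ⟨_, rfl⟩
  have f1 : 5 * l - 7 * a + 1 * b - 11 * c = 5 * H1 := by rw [g1, ha', hb', hc', hl']; ring
  have r1 : H1 % 5 = 1 := by clear * - g1 hrel; omega
  have s1 : H1 % 2 = 1 := by clear * - f1 hpar; omega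
  have t1 : 0 ≤ H1 := by clear * - f1 e1 hl0; omega
  obtain ⟨H2, g2⟩ : ∃ H, H = -15 * l' - 9 * a' - 3 * b' + 15 * c' - 3 := ⟨_, rfl⟩
  have f2 : -15 * l - 9 * a - 3 * b + 3 * c = 5 * H2 := by rw [g2, ha', hb', hc', hl']; ring
  have r2 : H2 % 5 = 1 := by clear * - g2 hrel; omega
  have s2 : H2 % 2 = 1 := by clear * - f2 hpar; omega
  have t2 : H2 ≤ 0 := by clear * - f2 e2 hl0; omega
  obtain ⟨H3, g3⟩ : ∃ H, H = 5 * l' + 1 * a' - 13 * b' - 5 * c' - 5 := ⟨_, rfl⟩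
  have f3 : 5 * l + 1 * a - 13 * b - 1 * c = 5 * H3 := by rw [g3, ha', hb', hc', hl']; ring
  have r3 : H3 % 5 = 4 := by clear * - g3 hrel; omega
  have s3 : H3 % 2 = 1 := by clear * - f3 hpar; omega
  have t3 : 0 ≤ H3 := by clear * - f3 e3 hl0; omega
  apply rep_of (p1 := -H0) (p2 := H1) (m1 := H2) (m2 := -H3)
  · clear * - t0; omega
  · clear * - t1; omega
  · clear * - t2; omega
  · clear * - t3; omega
  · clear * - r0 s0; omega
  · clear * - r1 s1; omega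
  · clear * - r2 s2; omega
  · clear * - r3 s3; omega
  · have key : 25 * (H0 ^ 2 + H1 ^ 2 + H2 ^ 2 + H3 ^ 2) = 25 * (40 * (n : ℤ) + 4) := by
      have : 25 * (H0 ^ 2 + H1 ^ 2 + H2 ^ 2 + H3 ^ 2)
        = (5 * H0) ^ 2 + (5 * H1) ^ 2 + (5 * H2) ^ 2 + (5 * H3) ^ 2 := by ring
      rw [this, ← f0, ← f1, ← f2, ← f3]
      linear_combination 180 * hK + 20 * hN
    linarith

/-- Case B: final step, `c = 10` modulo 25. -/
lemma caseB2 {n : ℕ} {l a b c K : ℤ} (hK : a ^ 2 + b ^ 2 + c ^ 2 = K)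
    (hN : 9 * K + 25 * l ^ 2 = 5 * (10 * (n : ℤ) + 1)) (hl0 : 0 ≤ l)
    (hl : 19 * (10 * (n : ℤ) + 1) ≤ 100 * l ^ 2)
    (hl5 : l % 5 = 1) (ha : a % 5 = 1) (hb : b % 5 = 2) (hc : c % 25 = 10) : Rep n := by
  have hpar : (l + a + b + c) % 2 = 1 := by
    have h1 := sq_mod_two l
    have h2 := sq_mod_two a
    have h3 := sq_mod_two b
    have h4 := sq_mod_two c
    omega
  obtain ⟨a', ha'⟩ : ∃ t, a = 5 * t + 1 := ⟨a / 5, by omega⟩
  obtain ⟨b', hb'⟩ : ∃ t, b = 5 * t + 2 := ⟨b / 5, by omega⟩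
  obtain ⟨c', hc'⟩ : ∃ t, c = 25 * t + 10 := ⟨c / 25, by omega⟩
  obtain ⟨l', hl'⟩ : ∃ t, l = 5 * t + 1 := ⟨l / 5, by omega⟩
  have hrel : (2 * a' + 4 * b') % 5 = 3 := by
    have hK' := hK
    have hN' := hN
    rw [ha', hb', hc'] at hK'
    rw [hl'] at hN'
    ring_nf at hK' hN'
    clear * - hK' hN'
    omega
  have k1 : 171 * K ≤ (5 * l) ^ 2 := by
    have : (5 * l) ^ 2 = 25 * l ^ 2 := by ring
    rw [this]; linarith
  have k3 : 99 * K ≤ (15 * l) ^ 2 := by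
    have h1 : (15 * l) ^ 2 = 225 * l ^ 2 := by ring
    have h2 : 0 ≤ K := by rw [← hK]; positivity
    have h3 : 0 ≤ l ^ 2 := by positivity
    rw [h1]; linarith
  have e0 := cs3' (α := -1) (β := -7) (γ := -7) (S := 99) (M := 15 * l) (by omega) hK
    (by norm_num) k3
  have e1 := cs3' (α := -3) (β := 9) (γ := 3) (S := 99) (M := 15 * l) (by omega) hK
    (by norm_num) k3
  have e2 := cs3' (α := 1) (β := 7) (γ := -11) (S := 171) (M := 5 * l) (by omega) hK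
    (by norm_num) k1
  have e3 := cs3' (α := 13) (β := 1) (γ := 1) (S := 171) (M := 5 * l) (by omega) hK
    (by norm_num) k1
  obtain ⟨H0, g0⟩ : ∃ H, H = -15 * l' - 1 * a' - 7 * b' - 35 * c' - 20 := ⟨_, rfl⟩
  have f0 : -15 * l - 1 * a - 7 * b - 7 * c = 5 * H0 := by rw [g0, ha', hb', hc', hl']; ring
  have r0 : H0 % 5 = 1 := by clear * - g0 hrel; omega
  have s0 : H0 % 2 = 1 := by clear * - f0 hpar; omega
  have t0 : H0 ≤ 0 := by clear * - f0 e0 hl0; omega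
  obtain ⟨H1, g1⟩ : ∃ H, H = -15 * l' - 3 * a' + 9 * b' + 15 * c' + 6 := ⟨_, rfl⟩
  have f1 : -15 * l - 3 * a + 9 * b + 3 * c = 5 * H1 := by rw [g1, ha', hb', hc', hl']; ring
  have r1 : H1 % 5 = 4 := by clear * - g1 hrel; omega
  have s1 : H1 % 2 = 1 := by clear * - f1 hpar; omega
  have t1 : H1 ≤ 0 := by clear * - f1 e1 hl0; omega
  obtain ⟨H2, g2⟩ : ∃ H, H = 5 * l' + 1 * a' + 7 * b' - 55 * c' - 18 := ⟨_, rfl⟩
  have f2 : 5 * l + 1 * a + 7 * b - 11 * c = 5 * H2 := by rw [g2, ha', hb', hc', hl']; ring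
  have r2 : H2 % 5 = 1 := by clear * - g2 hrel; omega
  have s2 : H2 % 2 = 1 := by clear * - f2 hpar; omega
  have t2 : 0 ≤ H2 := by clear * - f2 e2 hl0; omega
  obtain ⟨H3, g3⟩ : ∃ H, H = -5 * l' + 13 * a' + 1 * b' + 5 * c' + 4 := ⟨_, rfl⟩
  have f3 : -5 * l + 13 * a + 1 * b + 1 * c = 5 * H3 := by rw [g3, ha', hb', hc', hl']; ring
  have r3 : H3 % 5 = 1 := by clear * - g3 hrel; omega
  have s3 : H3 % 2 = 1 := by clear * - f3 hpar; omega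
  have t3 : H3 ≤ 0 := by clear * - f3 e3 hl0; omega
  apply rep_of (p1 := -H1) (p2 := H2) (m1 := H0) (m2 := H3)
  · clear * - t1; omega
  · clear * - t2; omega
  · clear * - t0; omega
  · clear * - t3; omega
  · clear * - r1 s1; omega
  · clear * - r2 s2; omega
  · clear * - r0 s0; omega
  · clear * - r3 s3; omega
  · have key : 25 * (H0 ^ 2 + H1 ^ 2 + H2 ^ 2 + H3 ^ 2) = 25 * (40 * (n : ℤ) + 4) := by
      have : 25 * (H0 ^ 2 + H1 ^ 2 + H2 ^ 2 + H3 ^ 2)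
        = (5 * H0) ^ 2 + (5 * H1) ^ 2 + (5 * H2) ^ 2 + (5 * H3) ^ 2 := by ring
      rw [this, ← f0, ← f1, ← f2, ← f3]
      linear_combination 180 * hK + 20 * hN
    linarith

end Pool.H9.Pent
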