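import Mathlib
import Pool.Agent.H9.Pent.Cases

/-!
Sign normalisation, choice of the auxiliary parameter, and the asymptotic range.
-/

namespace Pool.H9.Pent

/-- every integer is up to sign congruent to 0, 1 or 2 modulo 5 -/
lemma sign5 (a : ℤ) : ∃ a' : ℤ, a' ^ 2 = a ^ 2 ∧
    ((a' % 5 = 0 ∧ a' ^ 2 % 5 = 0) ∨ (a' % 5 = 1 ∧ a' ^ 2 % 5 = 1) ∨
      (a' % 5 = 2 ∧ a' ^ 2 % 5 = 4)) := by
  have h : a % 5 = 0 ∨ a % 5 = 1 ∨ a % 5 = 2 ∨ a % 5 = 3 ∨ a % 5 = 4 := by omega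
  have key : ∀ b : ℤ, b ^ 2 % 5 = (b % 5) ^ 2 % 5 := fun b => by
    rw [pow_two, pow_two, Int.mul_emod]
  rcases h with h | h | h | h | h
  · exact ⟨a, rfl, Or.inl ⟨h, by rw [key, h]; norm_num⟩⟩
  · exact ⟨a, rfl, Or.inr (Or.inl ⟨h, by rw [key, h]; norm_num⟩)⟩
  · exact ⟨a, rfl, Or.inr (Or.inr ⟨h, by rw [key, h]; norm_num⟩)⟩
  · have h' : (-a) % 5 = 2 := by omega
    exact ⟨-a, by ring, Or.inr (Or.inr ⟨h', by rw [key, h']; norm_num⟩)⟩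
  · have h' : (-a) % 5 = 1 := by omega
    exact ⟨-a, by ring, Or.inr (Or.inl ⟨h', by rw [key, h']; norm_num⟩)⟩

lemma norm4 {a b c K : ℤ} (h : a ^ 2 + b ^ 2 + c ^ 2 = K) (hK : K % 5 = 4) :
    ∃ x y z : ℤ, x ^ 2 + y ^ 2 + z ^ 2 = K ∧
      ((x % 5 = 2 ∧ y % 5 = 0 ∧ z % 5 = 0) ∨ (x % 5 = 1 ∧ y % 5 = 2 ∧ z % 5 = 2)) := by
  obtain ⟨a', ha, ha'⟩ := sign5 a
  obtain ⟨b', hb, hb'⟩ := sign5 b
  obtain ⟨c', hc, hc'⟩ := sign5 c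
  have h' : a' ^ 2 + b' ^ 2 + c' ^ 2 = K := by rw [ha, hb, hc, h]
  rcases ha' with ⟨ha1, ha2⟩ | ⟨ha1, ha2⟩ | ⟨ha1, ha2⟩ <;>
  rcases hb' with ⟨hb1, hb2⟩ | ⟨hb1, hb2⟩ | ⟨hb1, hb2⟩ <;>
  rcases hc' with ⟨hc1, hc2⟩ | ⟨hc1, hc2⟩ | ⟨hc1, hc2⟩ <;>
  first
  | (exfalso; clear * - h' hK ha2 hb2 hc2; omega)
  | exact ⟨a', b', c', h', Or.inl ⟨ha1, hb1, hc1⟩⟩
  | exact ⟨a', b', c', h', Or.inr ⟨ha1, hb1, hc1⟩⟩
  | exact ⟨b', a', c', by rw [← h']; ring, Or.inl ⟨hb1, ha1, hc1⟩⟩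
  | exact ⟨b', a', c', by rw [← h']; ring, Or.inr ⟨hb1, ha1, hc1⟩⟩
  | exact ⟨c', a', b', by rw [← h']; ring, Or.inl ⟨hc1, ha1, hb1⟩⟩
  | exact ⟨c', a', b', by rw [← h']; ring, Or.inr ⟨hc1, ha1, hb1⟩⟩

lemma norm1 {a b c K : ℤ} (h : a ^ 2 + b ^ 2 + c ^ 2 = K) (hK : K % 5 = 1) :
    ∃ x y z : ℤ, x ^ 2 + y ^ 2 + z ^ 2 = K ∧
      ((x % 5 = 1 ∧ y % 5 = 0 ∧ z % 5 = 0) ∨ (x % 5 = 2 ∧ y % 5 = 1 ∧ z % 5 = 1)) := by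
  obtain ⟨a', ha, ha'⟩ := sign5 a
  obtain ⟨b', hb, hb'⟩ := sign5 b
  obtain ⟨c', hc, hc'⟩ := sign5 c
  have h' : a' ^ 2 + b' ^ 2 + c' ^ 2 = K := by rw [ha, hb, hc, h]
  rcases ha' with ⟨ha1, ha2⟩ | ⟨ha1, ha2⟩ | ⟨ha1, ha2⟩ <;>
  rcases hb' with ⟨hb1, hb2⟩ | ⟨hb1, hb2⟩ | ⟨hb1, hb2⟩ <;>
  rcases hc' with ⟨hc1, hc2⟩ | ⟨hc1, hc2⟩ | ⟨hc1, hc2⟩ <;>
  first
  | (exfalso; clear * - h' hK ha2 hb2 hc2; omega)
  | exact ⟨a', b', c', h', Or.inl ⟨ha1, hb1, hc1⟩⟩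
  | exact ⟨a', b', c', h', Or.inr ⟨ha1, hb1, hc1⟩⟩
  | exact ⟨b', a', c', by rw [← h']; ring, Or.inl ⟨hb1, ha1, hc1⟩⟩
  | exact ⟨b', a', c', by rw [← h']; ring, Or.inr ⟨hb1, ha1, hc1⟩⟩
  | exact ⟨c', a', b', by rw [← h']; ring, Or.inl ⟨hc1, ha1, hb1⟩⟩
  | exact ⟨c', a', b', by rw [← h']; ring, Or.inr ⟨hc1, ha1, hb1⟩⟩

lemma norm20 {a b c K : ℤ} (h : a ^ 2 + b ^ 2 + c ^ 2 = K) (hK : K % 25 = 20) :
    ∃ x y z : ℤ, x ^ 2 + y ^ 2 + z ^ 2 = K ∧ x % 5 = 1 ∧ y % 5 = 2 ∧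
      (z % 25 = 0 ∨ z % 25 = 5 ∨ z % 25 = 10) := by
  obtain ⟨x, y, z, h1, hx, hy, hz⟩ : ∃ x y z : ℤ, x ^ 2 + y ^ 2 + z ^ 2 = K ∧
      x % 5 = 1 ∧ y % 5 = 2 ∧ z % 5 = 0 := by
    obtain ⟨a', ha, ha'⟩ := sign5 a
    obtain ⟨b', hb, hb'⟩ := sign5 b
    obtain ⟨c', hc, hc'⟩ := sign5 c
    have h' : a' ^ 2 + b' ^ 2 + c' ^ 2 = K := by rw [ha, hb, hc, h]
    rcases ha' with ⟨ha1, ha2⟩ | ⟨ha1, ha2⟩ | ⟨ha1, ha2⟩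
    · rcases hb' with ⟨hb1, hb2⟩ | ⟨hb1, hb2⟩ | ⟨hb1, hb2⟩
      · rcases hc' with ⟨hc1, hc2⟩ | ⟨hc1, hc2⟩ | ⟨hc1, hc2⟩
        · exfalso
          obtain ⟨a₁, rfl⟩ : ∃ t, a' = 5 * t := ⟨a' / 5, by omega⟩
          obtain ⟨b₁, rfl⟩ : ∃ t, b' = 5 * t := ⟨b' / 5, by omega⟩
          obtain ⟨c₁, rfl⟩ : ∃ t, c' = 5 * t := ⟨c' / 5, by omega⟩
          ring_nf at h'
          clear * - h' hK
          omega
        · exfalso; clear * - h' hK ha2 hb2 hc2; omega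
        · exfalso; clear * - h' hK ha2 hb2 hc2; omega
      · rcases hc' with ⟨hc1, hc2⟩ | ⟨hc1, hc2⟩ | ⟨hc1, hc2⟩
        · exfalso; clear * - h' hK ha2 hb2 hc2; omega
        · exfalso; clear * - h' hK ha2 hb2 hc2; omega
        · exact ⟨b', c', a', by rw [← h']; ring, hb1, hc1, ha1⟩
      · rcases hc' with ⟨hc1, hc2⟩ | ⟨hc1, hc2⟩ | ⟨hc1, hc2⟩
        · exfalso; clear * - h' hK ha2 hb2 hc2; omega
        · exact ⟨c', b', a', by rw [← h']; ring, hc1, hb1, ha1⟩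
        · exfalso; clear * - h' hK ha2 hb2 hc2; omega
    · rcases hb' with ⟨hb1, hb2⟩ | ⟨hb1, hb2⟩ | ⟨hb1, hb2⟩
      · rcases hc' with ⟨hc1, hc2⟩ | ⟨hc1, hc2⟩ | ⟨hc1, hc2⟩
        · exfalso; clear * - h' hK ha2 hb2 hc2; omega
        · exfalso; clear * - h' hK ha2 hb2 hc2; omega
        · exact ⟨a', c', b', by rw [← h']; ring, ha1, hc1, hb1⟩
      · exfalso; rcases hc' with ⟨hc1, hc2⟩ | ⟨hc1, hc2⟩ | ⟨hc1, hc2⟩ <;> omega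
      · rcases hc' with ⟨hc1, hc2⟩ | ⟨hc1, hc2⟩ | ⟨hc1, hc2⟩
        · exact ⟨a', b', c', h', ha1, hb1, hc1⟩
        · exfalso; clear * - h' hK ha2 hb2 hc2; omega
        · exfalso; clear * - h' hK ha2 hb2 hc2; omega
    · rcases hb' with ⟨hb1, hb2⟩ | ⟨hb1, hb2⟩ | ⟨hb1, hb2⟩
      · rcases hc' with ⟨hc1, hc2⟩ | ⟨hc1, hc2⟩ | ⟨hc1, hc2⟩
        · exfalso; clear * - h' hK ha2 hb2 hc2; omega
        · exact ⟨c', a', b', by rw [← h']; ring, hc1, ha1, hb1⟩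
        · exfalso; clear * - h' hK ha2 hb2 hc2; omega
      · rcases hc' with ⟨hc1, hc2⟩ | ⟨hc1, hc2⟩ | ⟨hc1, hc2⟩
        · exact ⟨b', a', c', by rw [← h']; ring, hb1, ha1, hc1⟩
        · exfalso; clear * - h' hK ha2 hb2 hc2; omega
        · exfalso; clear * - h' hK ha2 hb2 hc2; omega
      · exfalso; rcases hc' with ⟨hc1, hc2⟩ | ⟨hc1, hc2⟩ | ⟨hc1, hc2⟩ <;> omega
  have h25 : z % 25 = 0 ∨ z % 25 = 5 ∨ z % 25 = 10 ∨ z % 25 = 15 ∨ z % 25 = 20 := by omega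
  rcases h25 with h25 | h25 | h25 | h25 | h25
  · exact ⟨x, y, z, h1, hx, hy, Or.inl h25⟩
  · exact ⟨x, y, z, h1, hx, hy, Or.inr (Or.inl h25)⟩
  · exact ⟨x, y, z, h1, hx, hy, Or.inr (Or.inr h25)⟩
  · exact ⟨x, y, -z, by rw [← h1]; ring, hx, hy, Or.inr (Or.inr (by omega))⟩
  · exact ⟨x, y, -z, by rw [← h1]; ring, hx, hy, Or.inr (Or.inl (by omega))⟩

/-- every integer is up to sign congruent to 0 or 1 modulo 3 -/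
lemma sign3 (a : ℤ) : (a % 3 = 0 ∧ a ^ 2 % 3 = 0) ∨ (a % 3 = 1 ∧ a ^ 2 % 3 = 1) ∨
    ((-a) % 3 = 1 ∧ a ^ 2 % 3 = 1) := by
  have h : a % 3 = 0 ∨ a % 3 = 1 ∨ a % 3 = 2 := by omega
  rcases h with h | h | h
  · exact Or.inl ⟨h, by rw [pow_two, Int.mul_emod, h]; norm_num⟩
  · exact Or.inr (Or.inl ⟨h, by rw [pow_two, Int.mul_emod, h]; norm_num⟩)
  · exact Or.inr (Or.inr ⟨by omega, by rw [pow_two, Int.mul_emod, h]; norm_num⟩)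

/-- signs such that `x = y + z` modulo 3 -/
lemma signs3 (x y z : ℤ) (h : (x ^ 2 + y ^ 2 + z ^ 2) % 3 ≠ 1) :
    ∃ x' y' z' : ℤ, (x' = x ∨ x' = -x) ∧ (y' = y ∨ y' = -y) ∧ (z' = z ∨ z' = -z) ∧
      (x' - y' - z') % 3 = 0 := by
  rcases sign3 x with ⟨h1, h2⟩ | ⟨h1, h2⟩ | ⟨h1, h2⟩ <;>
  rcases sign3 y with ⟨h3, h4⟩ | ⟨h3, h4⟩ | ⟨h3, h4⟩ <;>
  rcases sign3 z with ⟨h5, h6⟩ | ⟨h5, h6⟩ | ⟨h5, h6⟩ <;>
  first
  | (exfalso; clear * - h h2 h4 h6; omega)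
  | exact ⟨x, y, z, Or.inl rfl, Or.inl rfl, Or.inl rfl, by clear * - h1 h3 h5; omega⟩
  | exact ⟨x, y, -z, Or.inl rfl, Or.inl rfl, Or.inr rfl, by clear * - h1 h3 h5; omega⟩
  | exact ⟨x, -y, z, Or.inl rfl, Or.inr rfl, Or.inl rfl, by clear * - h1 h3 h5; omega⟩
  | exact ⟨x, -y, -z, Or.inl rfl, Or.inr rfl, Or.inr rfl, by clear * - h1 h3 h5; omega⟩

lemma norm1' {a b c K : ℤ} (h : a ^ 2 + b ^ 2 + c ^ 2 = K) (hK : K % 5 = 1) (hK3 : K % 3 ≠ 1) :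
    ∃ x y z : ℤ, x ^ 2 + y ^ 2 + z ^ 2 = K ∧ x % 5 = 2 ∧ y % 5 = 1 ∧ z % 5 = 1 := by
  obtain ⟨x, y, z, h1, ⟨hx, hy, hz⟩ | ⟨hx, hy, hz⟩⟩ := norm1 h hK
  swap
  · exact ⟨x, y, z, h1, hx, hy, hz⟩
  obtain ⟨x', y', z', ex, ey, ez, hm⟩ := signs3 x y z (by rw [h1]; exact hK3)
  have h2 : x' ^ 2 + y' ^ 2 + z' ^ 2 = K := by
    rw [← h1]
    rcases ex with rfl | rfl <;> rcases ey with rfl | rfl <;> rcases ez with rfl | rfl <;> ring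
  have hy' : y' % 5 = 0 := by rcases ey with rfl | rfl <;> omega
  have hz' : z' % 5 = 0 := by rcases ez with rfl | rfl <;> omega
  have hx' : x' % 5 = 1 ∨ x' % 5 = 4 := by rcases ex with rfl | rfl <;> omega
  obtain ⟨p, hp⟩ : ∃ p, x' + 2 * y' + 2 * z' = 3 * p := ⟨(x' + 2 * y' + 2 * z') / 3, by omega⟩
  obtain ⟨q, hq⟩ : ∃ q, 2 * x' + y' - 2 * z' = 3 * q := ⟨(2 * x' + y' - 2 * z') / 3, by omega⟩
  obtain ⟨r, hr⟩ : ∃ r, -2 * x' + 2 * y' - z' = 3 * r := ⟨(-2 * x' + 2 * y' - z') / 3, by omega⟩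
  have h3 : p ^ 2 + q ^ 2 + r ^ 2 = K := by
    have : 9 * (p ^ 2 + q ^ 2 + r ^ 2) = 9 * K := by
      calc 9 * (p ^ 2 + q ^ 2 + r ^ 2) = (3 * p) ^ 2 + (3 * q) ^ 2 + (3 * r) ^ 2 := by ring
        _ = 9 * (x' ^ 2 + y' ^ 2 + z' ^ 2) := by rw [← hp, ← hq, ← hr]; ring
        _ = 9 * K := by rw [h2]
    linarith
  rcases hx' with hx' | hx'
  · have e1 : p % 5 = 2 := by omega
    have e2 : (-q) % 5 = 1 := by omega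
    have e3 : r % 5 = 1 := by omega
    exact ⟨p, -q, r, by rw [← h3]; ring, e1, e2, e3⟩
  · have e1 : (-p) % 5 = 2 := by omega
    have e2 : q % 5 = 1 := by omega
    have e3 : (-r) % 5 = 1 := by omega
    exact ⟨-p, q, -r, by rw [← h3]; ring, e1, e2, e3⟩

lemma exists_res (s m r : ℤ) (hm : 0 < m) : ∃ d l : ℤ, l = m * d + r ∧ s - m < l ∧ l ≤ s := by
  refine ⟨(s - r) / m, _, rfl, ?_, ?_⟩
  · have := Int.lt_mul_ediv_self_add (x := s - r) hm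
    linarith
  · have := Int.mul_ediv_self_le (x := s - r) (k := m) hm.ne'
    linarith

/-- Choice of `D` in case A. -/
lemma chooseA (n : ℕ) (t : ℤ) (h9 : (10 * (n : ℤ) + 1) % 9 = 0 ∨ (10 * (n : ℤ) + 1) % 9 = 1 ∨
      (10 * (n : ℤ) + 1) % 9 = 4 ∨ (10 * (n : ℤ) + 1) % 9 = 7) :
    ∃ D K : ℤ, 10 * (n : ℤ) + 1 = 9 * K + 25 * D ^ 2 ∧ t - 18 < D ∧ D ≤ t ∧
      (K % 4 = 1 ∨ K % 4 = 2) ∧ K % 5 = 4 := by
  have key : ∀ r : ℤ, ((10 * (n : ℤ) + 1 - 25 * r ^ 2) % 36 = 9 ∨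
      (10 * (n : ℤ) + 1 - 25 * r ^ 2) % 36 = 18) →
      ∃ D K : ℤ, 10 * (n : ℤ) + 1 = 9 * K + 25 * D ^ 2 ∧ t - 18 < D ∧ D ≤ t ∧
      (K % 4 = 1 ∨ K % 4 = 2) ∧ K % 5 = 4 := by
    intro r hr
    obtain ⟨d, D, hD, h1, h2⟩ := exists_res t 18 r (by norm_num)
    have hDD : 25 * D ^ 2 = 36 * (225 * d ^ 2 + 25 * (d * r)) + 25 * r ^ 2 := by rw [hD]; ring
    obtain ⟨u, hu⟩ : ∃ u, u = 225 * d ^ 2 + 25 * (d * r) := ⟨_, rfl⟩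
    rw [← hu] at hDD
    obtain ⟨K, hK⟩ : ∃ K, 10 * (n : ℤ) + 1 = 9 * K + 25 * D ^ 2 :=
      ⟨(10 * (n : ℤ) + 1 - 25 * D ^ 2) / 9, by omega⟩
    refine ⟨D, K, hK, h1, h2, ?_, ?_⟩
    · clear * - hK hDD hr; omega
    · clear * - hK; omega
  have h2 : (n : ℤ) % 2 = 0 ∨ (n : ℤ) % 2 = 1 := by omega
  rcases h9 with h9 | h9 | h9 | h9 <;> rcases h2 with h2 | h2
  · exact key 0 (by left; clear * - h9 h2; omega)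
  · exact key 9 (by right; clear * - h9 h2; omega)
  · exact key 2 (by left; clear * - h9 h2; omega)
  · exact key 11 (by right; clear * - h9 h2; omega)
  · exact key 4 (by left; clear * - h9 h2; omega)
  · exact key 13 (by right; clear * - h9 h2; omega)
  · exact key 10 (by left; clear * - h9 h2; omega)
  · exact key 1 (by right; clear * - h9 h2; omega)

/-- Choice of `l` in case B. -/
lemma chooseB (n : ℕ) (s : ℤ) (h9 : (10 * (n : ℤ) + 1) % 9 = 2 ∨ (10 * (n : ℤ) + 1) % 9 = 5 ∨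
      (10 * (n : ℤ) + 1) % 9 = 8) :
    ∃ l K : ℤ, 9 * K + 25 * l ^ 2 = 5 * (10 * (n : ℤ) + 1) ∧ s - 90 < l ∧ l ≤ s ∧ l % 5 = 1 ∧
      (K % 4 = 1 ∨ K % 4 = 2) ∧ K % 25 = 20 := by
  have key : ∀ r : ℤ, r % 5 = 1 → ((5 * (10 * (n : ℤ) + 1) - 25 * r ^ 2) % 36 = 9 ∨
      (5 * (10 * (n : ℤ) + 1) - 25 * r ^ 2) % 36 = 18) →
      ∃ l K : ℤ, 9 * K + 25 * l ^ 2 = 5 * (10 * (n : ℤ) + 1) ∧ s - 90 < l ∧ l ≤ s ∧ l % 5 = 1 ∧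
      (K % 4 = 1 ∨ K % 4 = 2) ∧ K % 25 = 20 := by
    intro r hr5 hr
    obtain ⟨d, D, hD, h1, h2⟩ := exists_res s 90 r (by norm_num)
    have hDD : 25 * D ^ 2 = 36 * (5625 * d ^ 2 + 125 * (d * r)) + 25 * r ^ 2 := by rw [hD]; ring
    obtain ⟨u, hu⟩ : ∃ u, u = 5625 * d ^ 2 + 125 * (d * r) := ⟨_, rfl⟩
    rw [← hu] at hDD
    obtain ⟨K, hK⟩ : ∃ K, 9 * K + 25 * D ^ 2 = 5 * (10 * (n : ℤ) + 1) :=
      ⟨(5 * (10 * (n : ℤ) + 1) - 25 * D ^ 2) / 9, by omega⟩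
    refine ⟨D, K, hK, h1, h2, ?_, ?_, ?_⟩
    · clear * - hD hr5; omega
    · clear * - hK hDD hr; omega
    · clear * - hK; omega
  have h2 : (n : ℤ) % 2 = 0 ∨ (n : ℤ) % 2 = 1 := by omega
  rcases h9 with h9 | h9 | h9 <;> rcases h2 with h2 | h2
  · exact key 56 (by norm_num) (by left; clear * - h9 h2; omega)
  · exact key 11 (by norm_num) (by right; clear * - h9 h2; omega)
  · exact key 46 (by norm_num) (by left; clear * - h9 h2; omega)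
  · exact key 1 (by norm_num) (by right; clear * - h9 h2; omega)
  · exact key 76 (by norm_num) (by left; clear * - h9 h2; omega)
  · exact key 31 (by norm_num) (by right; clear * - h9 h2; omega)

/-- Choice of `l` in case C. -/
lemma chooseC (n : ℕ) (s N1 : ℤ) (hN : 10 * (n : ℤ) + 1 = 3 * N1) (h3 : N1 % 3 = 1 ∨ N1 % 3 = 2) :
    ∃ l K : ℤ, K = N1 - l ^ 2 ∧ s - 30 < l ∧ l ≤ s ∧ l % 5 = 1 ∧
      (K % 4 = 1 ∨ K % 4 = 2) ∧ K % 5 = 1 ∧ K % 3 ≠ 1 := by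
  have key : ∀ r : ℤ, r % 5 = 1 → r ^ 2 % 5 = 1 → ((N1 - r ^ 2) % 12 = 6 ∨ (N1 - r ^ 2) % 12 = 9 ∨
      (N1 - r ^ 2) % 12 = 2 ∨ (N1 - r ^ 2) % 12 = 5) →
      ∃ l K : ℤ, K = N1 - l ^ 2 ∧ s - 30 < l ∧ l ≤ s ∧ l % 5 = 1 ∧
      (K % 4 = 1 ∨ K % 4 = 2) ∧ K % 5 = 1 ∧ K % 3 ≠ 1 := by
    intro r hr5 hr5' hr
    obtain ⟨d, D, hD, h1, h2⟩ := exists_res s 30 r (by norm_num)
    have hDD : D ^ 2 = 60 * (15 * d ^ 2 + (d * r)) + r ^ 2 := by rw [hD]; ring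
    obtain ⟨u, hu⟩ : ∃ u, u = 15 * d ^ 2 + (d * r) := ⟨_, rfl⟩
    rw [← hu] at hDD
    refine ⟨D, _, rfl, h1, h2, ?_, ?_, ?_, ?_⟩
    · clear * - hD hr5; omega
    · clear * - hDD hr; omega
    · clear * - hDD hN hr5'; omega
    · clear * - hDD hr; omega
  have h2 : (n : ℤ) % 2 = 0 ∨ (n : ℤ) % 2 = 1 := by omega
  rcases h3 with h3 | h3 <;> rcases h2 with h2 | h2
  · exact key 1 (by norm_num) (by norm_num) (by clear * - h3 h2 hN; omega)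
  · exact key 16 (by norm_num) (by norm_num) (by clear * - h3 h2 hN; omega)
  · exact key 21 (by norm_num) (by norm_num) (by clear * - h3 h2 hN; omega)
  · exact key 6 (by norm_num) (by norm_num) (by clear * - h3 h2 hN; omega)

lemma three_sq_int {K : ℤ} (h0 : 0 ≤ K) (h : K % 4 = 1 ∨ K % 4 = 2) :
    ∃ a b c : ℤ, a ^ 2 + b ^ 2 + c ^ 2 = K := by
  obtain ⟨k, rfl⟩ := Int.eq_ofNat_of_zero_le h0
  obtain ⟨a, b, c, habc⟩ := three_sq (n := k) (by omega)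
  exact ⟨a, b, c, habc.symm⟩

lemma repA {n : ℕ} (hn : 6480000 ≤ n) (h9 : (10 * (n : ℤ) + 1) % 9 = 0 ∨
    (10 * (n : ℤ) + 1) % 9 = 1 ∨ (10 * (n : ℤ) + 1) % 9 = 4 ∨ (10 * (n : ℤ) + 1) % 9 = 7) :
    Rep n := by
  set s : ℕ := Nat.sqrt (10 * n + 1) with hs
  have s1 : s * s ≤ 10 * n + 1 := Nat.sqrt_le _
  have s2 : 10 * n + 1 < (s + 1) * (s + 1) := Nat.lt_succ_sqrt _
  have s3 : 700 ≤ s := by
    rw [hs, Nat.le_sqrt]; omega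
  have s1' : (s : ℤ) ^ 2 ≤ 10 * n + 1 := by rw [pow_two]; exact_mod_cast s1
  have s2' : 10 * (n : ℤ) + 1 < ((s : ℤ) + 1) ^ 2 := by rw [pow_two]; exact_mod_cast s2
  have s3' : (700 : ℤ) ≤ s := by exact_mod_cast s3
  obtain ⟨D, K, hK, hD1, hD2, hK4, hK5⟩ := chooseA n ((s : ℤ) / 5) h9
  have d1 : (s : ℤ) - 89 ≤ 5 * D := by omega
  have d2 : 5 * D ≤ s := by omega
  have d3 : 0 ≤ D := by omega
  have d4 : 25 * D ^ 2 ≤ 10 * n + 1 := by nlinarith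
  have d5 : 3 * (10 * (n : ℤ) + 1) ≤ 100 * D ^ 2 := by
    have e1 : ((s : ℤ) - 89) ^ 2 ≤ (5 * D) ^ 2 := by
      apply pow_le_pow_left₀ (by omega) d1
    have e2 : 3 * ((s : ℤ) + 1) ^ 2 ≤ 4 * ((s : ℤ) - 89) ^ 2 := by nlinarith
    nlinarith
  obtain ⟨a, b, c, habc⟩ := three_sq_int (K := K) (by linarith) hK4
  obtain ⟨x, y, z, h1, ⟨hx, hy, hz⟩ | ⟨hx, hy, hz⟩⟩ := norm4 habc hK5
  · obtain ⟨y', rfl⟩ : ∃ t, y = 5 * t := ⟨y / 5, by omega⟩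
    obtain ⟨z', rfl⟩ : ∃ t, z = 5 * t := ⟨z / 5, by omega⟩
    exact caseA (X := 3 * x) (D := D) (Y := 3 * y') (Z := 3 * z')
      (by rw [hK, ← h1]; ring) (by omega) d3 d5
  · obtain ⟨y', hy'⟩ : ∃ t, 2 * x + y - 2 * z = 5 * t := ⟨(2 * x + y - 2 * z) / 5, by omega⟩
    obtain ⟨z', hz'⟩ : ∃ t, 2 * x - 2 * y + z = 5 * t := ⟨(2 * x - 2 * y + z) / 5, by omega⟩
    refine caseA (X := -(x + 2 * y + 2 * z)) (D := D) (Y := y') (Z := z') ?_ (by omega) d3 d5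
    have : 25 * (D ^ 2 + y' ^ 2 + z' ^ 2) = 25 * D ^ 2 + (5 * y') ^ 2 + (5 * z') ^ 2 := by ring
    rw [this, ← hy', ← hz', hK, ← h1]
    ring

lemma repB {n : ℕ} (hn : 6480000 ≤ n) (h9 : (10 * (n : ℤ) + 1) % 9 = 2 ∨
    (10 * (n : ℤ) + 1) % 9 = 5 ∨ (10 * (n : ℤ) + 1) % 9 = 8) : Rep n := by
  set s : ℕ := Nat.sqrt ((10 * n + 1) / 5) with hs
  have s1 : s * s ≤ (10 * n + 1) / 5 := Nat.sqrt_le _
  have s2 : (10 * n + 1) / 5 < (s + 1) * (s + 1) := Nat.lt_succ_sqrt _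
  have s3 : 3600 ≤ s := by
    rw [hs, Nat.le_sqrt]; omega
  have s1' : 5 * (s : ℤ) ^ 2 ≤ 10 * n + 1 := by
    have : 5 * (s * s) ≤ 10 * n + 1 := by omega
    rw [pow_two]; exact_mod_cast this
  have s2' : 10 * (n : ℤ) + 1 < 5 * ((s : ℤ) + 1) ^ 2 := by
    have : 10 * n + 1 < 5 * ((s + 1) * (s + 1)) := by omega
    rw [pow_two]; exact_mod_cast this
  have s3' : (3600 : ℤ) ≤ s := by exact_mod_cast s3
  obtain ⟨l, K, hK, hl1, hl2, hl5, hK4, hK25⟩ := chooseB n (s : ℤ) h9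
  have d1 : (s : ℤ) - 89 ≤ l := by omega
  have d3 : 0 ≤ l := by omega
  have d4 : 5 * l ^ 2 ≤ 10 * n + 1 := by nlinarith
  have d5 : 19 * (10 * (n : ℤ) + 1) ≤ 100 * l ^ 2 := by
    have e1 : ((s : ℤ) - 89) ^ 2 ≤ l ^ 2 := by
      apply pow_le_pow_left₀ (by omega) d1
    have e2 : 95 * ((s : ℤ) + 1) ^ 2 ≤ 100 * ((s : ℤ) - 89) ^ 2 := by nlinarith
    nlinarith
  obtain ⟨a, b, c, habc⟩ := three_sq_int (K := K) (by linarith) hK4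
  obtain ⟨x, y, z, h1, hx, hy, hz⟩ := norm20 habc hK25
  rcases hz with hz | hz | hz
  · exact caseB0 h1 hK d3 d5 hl5 hx hy hz
  · exact caseB1 h1 hK d3 d5 hl5 hx hy hz
  · exact caseB2 h1 hK d3 d5 hl5 hx hy hz

lemma repC {n : ℕ} (hn : 6480000 ≤ n) (h9 : (10 * (n : ℤ) + 1) % 9 = 3 ∨
    (10 * (n : ℤ) + 1) % 9 = 6) : Rep n := by
  obtain ⟨N1, hN1⟩ : ∃ N1 : ℕ, 10 * n + 1 = 3 * N1 := ⟨(10 * n + 1) / 3, by omega⟩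
  have hN : 10 * (n : ℤ) + 1 = 3 * (N1 : ℤ) := by exact_mod_cast hN1
  set s : ℕ := Nat.sqrt N1 with hs
  have s1 : s * s ≤ N1 := Nat.sqrt_le _
  have s2 : N1 < (s + 1) * (s + 1) := Nat.lt_succ_sqrt _
  have s3 : 710 ≤ s := by
    rw [hs, Nat.le_sqrt]; omega
  have s1' : (s : ℤ) ^ 2 ≤ N1 := by rw [pow_two]; exact_mod_cast s1
  have s2' : (N1 : ℤ) < ((s : ℤ) + 1) ^ 2 := by rw [pow_two]; exact_mod_cast s2
  have s3' : (710 : ℤ) ≤ s := by exact_mod_cast s3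
  obtain ⟨l, K, hK, hl1, hl2, hl5, hK4, hK5, hK3⟩ := chooseC n (s : ℤ) N1 hN (by omega)
  have d1 : (s : ℤ) - 29 ≤ l := by omega
  have d3 : 0 ≤ l := by omega
  have d4 : l ^ 2 ≤ N1 := by nlinarith
  have d5 : 11 * (N1 : ℤ) ≤ 12 * l ^ 2 := by
    have e1 : ((s : ℤ) - 29) ^ 2 ≤ l ^ 2 := by
      apply pow_le_pow_left₀ (by omega) d1
    have e2 : 11 * ((s : ℤ) + 1) ^ 2 ≤ 12 * ((s : ℤ) - 29) ^ 2 := by nlinarith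
    nlinarith
  obtain ⟨a, b, c, habc⟩ := three_sq_int (K := K) (by linarith) hK4
  obtain ⟨x, y, z, h1, hx, hy, hz⟩ := norm1' habc hK5 hK3
  exact caseC hN (by rw [h1, hK]) d3 d5 hl5 hx hy hz

/-- The asymptotic range. -/
theorem rep_large {n : ℕ} (hn : 6480000 ≤ n) : Rep n := by
  have h : (10 * (n : ℤ) + 1) % 9 = 0 ∨ (10 * (n : ℤ) + 1) % 9 = 1 ∨ (10 * (n : ℤ) + 1) % 9 = 2 ∨
    (10 * (n : ℤ) + 1) % 9 = 3 ∨ (10 * (n : ℤ) + 1) % 9 = 4 ∨ (10 * (n : ℤ) + 1) % 9 = 5 ∨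
    (10 * (n : ℤ) + 1) % 9 = 6 ∨ (10 * (n : ℤ) + 1) % 9 = 7 ∨ (10 * (n : ℤ) + 1) % 9 = 8 := by
    omega
  rcases h with h | h | h | h | h | h | h | h | h
  · exact repA hn (by tauto)
  · exact repA hn (by tauto)
  · exact repB hn (by tauto)
  · exact repC hn (by tauto)
  · exact repA hn (by tauto)
  · exact repB hn (by tauto)
  · exact repC hn (by tauto)
  · exact repA hn (by tauto)
  · exact repB hn (by tauto)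

end Pool.H9.Pent
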