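import Mathlib
import Pool.Agent.H9.Pent.Cases

/-!
The finite range, by a bit mask computation in the kernel.
-/

namespace Pool.H9.Pent

/-- `w(5w-1)/2` -/
def Qm (w : ℕ) : ℕ := w * (5 * w - 1) / 2

/-- `y(5y+1)/2` -/
def Qp (y : ℕ) : ℕ := y * (5 * y + 1) / 2

/-- bitwise or of `f 0, ..., f (k-1)` -/
def orTo (f : ℕ → ℕ) : ℕ → ℕ
  | 0 => 0
  | k + 1 => orTo f k ||| f k

lemma orTo_bit (f : ℕ → ℕ) (k i : ℕ) (h : (orTo f k).testBit i = true) :
    ∃ j, (f j).testBit i = true := by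
  induction k with
  | zero => simp [orTo] at h
  | succ k ih =>
    rw [orTo, Nat.testBit_or, Bool.or_eq_true] at h
    rcases h with h | h
    · exact ih h
    · exact ⟨k, h⟩

def T1 : ℕ := orTo (fun y => 1 <<< Qp y) 99
def T2 : ℕ := orTo (fun x => T1 <<< Qm x) 99
def T3 : ℕ := orTo (fun z => T2 <<< Qp z) 99

def mask (w : ℕ) : ℕ := T3 ||| T3 >>> (Qm w - Qm (w - 1)) ||| T3 >>> (Qm w - Qm (w - 2)) |||
  T3 >>> (Qm w - Qm (w - 3))

def check (w : ℕ) : Bool := Nat.beq (mask w % 2 ^ (5 * w + 2)) (2 ^ (5 * w + 2) - 1)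

def allFrom (f : ℕ → Bool) (a : ℕ) : ℕ → Bool
  | 0 => f a
  | d + 1 => allFrom f a d && allFrom f (a + 2 ^ d) d

lemma allFrom_spec (f : ℕ → Bool) (d : ℕ) : ∀ a, allFrom f a d = true →
    ∀ i, a ≤ i → i < a + 2 ^ d → f i = true := by
  induction d with
  | zero =>
    intro a h i h1 h2
    have : i = a := by omega
    subst this
    exact h
  | succ d ih =>
    intro a h i h1 h2
    rw [allFrom, Bool.and_eq_true] at h
    have h3 : 2 ^ (d + 1) = 2 ^ d + 2 ^ d := by ring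
    by_cases h4 : i < a + 2 ^ d
    · exact ih a h.1 i h1 h4
    · exact ih (a + 2 ^ d) h.2 i (by omega) (by omega)

set_option maxRecDepth 100000 in
theorem check_all : allFrom check 3 11 = true := by decide +kernel

lemma one_shift_bit {a i : ℕ} (h : (1 <<< a).testBit i = true) : i = a := by
  rw [Nat.one_shiftLeft, Nat.testBit_two_pow] at h
  exact (of_decide_eq_true h).symm

lemma T1_bit {i : ℕ} (h : T1.testBit i = true) : ∃ y, i = Qp y := by
  obtain ⟨y, hy⟩ := orTo_bit _ _ _ h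
  exact ⟨y, one_shift_bit hy⟩

lemma T2_bit {i : ℕ} (h : T2.testBit i = true) : ∃ x y, i = Qm x + Qp y := by
  obtain ⟨x, hx⟩ := orTo_bit _ _ _ h
  rw [Nat.testBit_shiftLeft, Bool.and_eq_true, decide_eq_true_iff] at hx
  obtain ⟨y, hy⟩ := T1_bit hx.2
  exact ⟨x, y, by omega⟩

lemma T3_bit {i : ℕ} (h : T3.testBit i = true) : ∃ x y z, i = Qm x + Qp y + Qp z := by
  obtain ⟨z, hz⟩ := orTo_bit _ _ _ h
  rw [Nat.testBit_shiftLeft, Bool.and_eq_true, decide_eq_true_iff] at hz
  obtain ⟨x, y, hy⟩ := T2_bit hz.2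
  exact ⟨x, y, z, by omega⟩

lemma two_Qm (w : ℕ) : 2 * (Qm w : ℤ) = (w : ℤ) * (5 * w - 1) := by
  rcases Nat.eq_zero_or_pos w with rfl | hw
  · simp [Qm]
  · have h1 : w * (5 * w - 1) % 2 = 0 := by
      rcases Nat.even_or_odd' w with ⟨c, rfl | rfl⟩
      · rw [Nat.mul_assoc, Nat.mul_mod_right]
      · have : 5 * (2 * c + 1) - 1 = 2 * (5 * c + 2) := by omega
        rw [this, Nat.mul_left_comm, Nat.mul_mod_right]
    have h2 : 2 * Qm w = w * (5 * w - 1) := by unfold Qm; omega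
    have h3 : ((5 * w - 1 : ℕ) : ℤ) = 5 * (w : ℤ) - 1 := by omega
    have h4 : ((2 * Qm w : ℕ) : ℤ) = ((w * (5 * w - 1) : ℕ) : ℤ) := by rw [h2]
    push_cast [h3] at h4
    exact h4

lemma two_Qp (w : ℕ) : 2 * (Qp w : ℤ) = (w : ℤ) * (5 * w + 1) := by
  have h1 : w * (5 * w + 1) % 2 = 0 := by
    rcases Nat.even_or_odd' w with ⟨c, rfl | rfl⟩
    · rw [Nat.mul_assoc, Nat.mul_mod_right]
    · have : 5 * (2 * c + 1) + 1 = 2 * (5 * c + 3) := by omega
      rw [this, Nat.mul_left_comm, Nat.mul_mod_right]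
  have h2 : 2 * Qp w = w * (5 * w + 1) := by unfold Qp; omega
  exact_mod_cast h2

lemma rep_iff (n : ℕ) : Rep n ↔ ∃ w x y z : ℕ, n = Qm w + Qm x + Qp y + Qp z := by
  unfold Rep
  constructor
  · rintro ⟨w, x, y, z, h⟩
    refine ⟨w, x, y, z, ?_⟩
    rw [← two_Qm, ← two_Qm, ← two_Qp, ← two_Qp] at h
    omega
  · rintro ⟨w, x, y, z, h⟩
    refine ⟨w, x, y, z, ?_⟩
    rw [← two_Qm, ← two_Qm, ← two_Qp, ← two_Qp]
    omega

lemma Qm_mono {a b : ℕ} (h : a ≤ b) : Qm a ≤ Qm b := by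
  unfold Qm
  apply Nat.div_le_div_right
  exact Nat.mul_le_mul h (by omega)

lemma Qm_succ (w : ℕ) : Qm (w + 1) = Qm w + (5 * w + 2) := by
  have h1 := two_Qm w
  have h2 := two_Qm (w + 1)
  push_cast at h2
  have h3 : 2 * (Qm (w + 1) : ℤ) = 2 * ((Qm w : ℤ) + (5 * w + 2)) := by
    rw [h2, mul_add 2, h1]; ring
  have h4 : (Qm (w + 1) : ℤ) = ((Qm w + (5 * w + 2) : ℕ) : ℤ) := by push_cast; linarith
  exact_mod_cast h4

lemma shift_case {w v j : ℕ} (hv : v ≤ w) (h : (T3 >>> (Qm w - Qm v)).testBit j = true) :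
    Rep (Qm w + j) := by
  rw [Nat.testBit_shiftRight] at h
  obtain ⟨x, y, z, h1⟩ := T3_bit h
  have h2 := Qm_mono hv
  rw [rep_iff]
  exact ⟨v, x, y, z, by omega⟩

lemma check_spec {w j : ℕ} (h : check w = true) (hj : j < 5 * w + 2) : Rep (Qm w + j) := by
  have h1 : mask w % 2 ^ (5 * w + 2) = 2 ^ (5 * w + 2) - 1 := Nat.eq_of_beq_eq_true h
  have h2 : (mask w).testBit j = true := by
    have : (mask w % 2 ^ (5 * w + 2)).testBit j = true := by
      rw [h1, Nat.testBit_two_pow_sub_one]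
      exact decide_eq_true hj
    rw [Nat.testBit_mod_two_pow, Bool.and_eq_true] at this
    exact this.2
  unfold mask at h2
  rw [Nat.testBit_or, Nat.testBit_or, Nat.testBit_or, Bool.or_eq_true, Bool.or_eq_true,
    Bool.or_eq_true] at h2
  rcases h2 with ((h2 | h2) | h2) | h2
  · exact shift_case (le_refl w) (by simpa using h2)
  · exact shift_case (by omega) h2
  · exact shift_case (by omega) h2
  · exact shift_case (by omega) h2

/-- the finite range -/
theorem rep_mid {n : ℕ} (h1 : 21 ≤ n) (h2 : n < 6480000) : Rep n := by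
  have key : ∀ w : ℕ, 3 ≤ w → n < Qm w → w ≤ 2000 → Rep n := by
    intro w
    induction w with
    | zero => intro h; omega
    | succ w ih =>
      intro h3 h4 h5
      by_cases h6 : n < Qm w
      · by_cases h7 : 3 ≤ w
        · exact ih h7 h6 (by omega)
        · have h8 : Qm w ≤ Qm 3 := Qm_mono (by omega)
          have h9 : Qm 3 = 21 := by decide
          omega
      · by_cases h7 : 3 ≤ w
        · have h8 : check w = true := allFrom_spec check 11 3 check_all w h7 (by norm_num; omega)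
          rw [Qm_succ] at h4
          have h9 := check_spec (w := w) (j := n - Qm w) h8 (by omega)
          have h10 : Qm w + (n - Qm w) = n := by omega
          rwa [h10] at h9
        · have h8 : Qm (w + 1) ≤ Qm 3 := Qm_mono (by omega)
          have h9 : Qm 3 = 21 := by decide
          omega
  exact key 2000 (by norm_num) (by
    have : Qm 2000 = 9999000 := by decide +kernel
    omega) (le_refl _)

lemma rep_small {n : ℕ} (h : n < 21) (h1 : n ≠ 1) (h19 : n ≠ 19) : Rep n := by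
  rw [rep_iff]
  have key : ∀ n : ℕ, n < 21 → n ≠ 1 → n ≠ 19 → ∃ w < 3, ∃ x < 3, ∃ y < 3, ∃ z < 3,
      n = Qm w + Qm x + Qp y + Qp z := by decide +kernel
  obtain ⟨w, -, x, -, y, -, z, -, h⟩ := key n h h1 h19
  exact ⟨w, x, y, z, h⟩

lemma Qm_ge (w : ℕ) : w ≤ Qm w := by
  have := two_Qm w
  have h2 : (w : ℤ) * (5 * w - 1) ≥ 2 * w := by
    rcases Nat.eq_zero_or_pos w with rfl | hw
    · simp
    · have : (1 : ℤ) ≤ w := by exact_mod_cast hw
      nlinarith
  have h3 : (w : ℤ) ≤ Qm w := by linarith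
  exact_mod_cast h3

lemma Qp_ge (w : ℕ) : w ≤ Qp w := by
  have := two_Qp w
  have h2 : (w : ℤ) * (5 * w + 1) ≥ 2 * w := by
    rcases Nat.eq_zero_or_pos w with rfl | hw
    · simp
    · have : (1 : ℤ) ≤ w := by exact_mod_cast hw
      nlinarith
  have h3 : (w : ℤ) ≤ Qp w := by linarith
  exact_mod_cast h3

lemma not_rep_one : ¬ Rep 1 := by
  rw [rep_iff]
  rintro ⟨w, x, y, z, h⟩
  have hw := Qm_ge w
  have hx := Qm_ge x
  have hy := Qp_ge y
  have hz := Qp_ge z
  have key : ∀ w < 2, ∀ x < 2, ∀ y < 2, ∀ z < 2, 1 ≠ Qm w + Qm x + Qp y + Qp z := by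
    decide +kernel
  exact key w (by omega) x (by omega) y (by omega) z (by omega) h

lemma not_rep_nineteen : ¬ Rep 19 := by
  rw [rep_iff]
  rintro ⟨w, x, y, z, h⟩
  have key : ∀ w < 3, ∀ x < 3, ∀ y < 3, ∀ z < 3, 19 ≠ Qm w + Qm x + Qp y + Qp z := by
    decide +kernel
  have q3 : Qm 3 = 21 := by decide
  have p3 : Qp 3 = 24 := by decide
  have hp : ∀ a b : ℕ, a ≤ b → Qp a ≤ Qp b := by
    intro a b hab
    unfold Qp
    apply Nat.div_le_div_right
    exact Nat.mul_le_mul hab (by omega)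
  have hw : w < 3 := by
    by_contra hc
    have := Qm_mono (a := 3) (b := w) (by omega)
    omega
  have hx : x < 3 := by
    by_contra hc
    have := Qm_mono (a := 3) (b := x) (by omega)
    omega
  have hy : y < 3 := by
    by_contra hc
    have := hp 3 y (by omega)
    omega
  have hz : z < 3 := by
    by_contra hc
    have := hp 3 z (by omega)
    omega
  exact key w hw x hx y hy z hz h

end Pool.H9.Pent
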